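import Pool.Agent.Q74.PD.Stm2

/-! Project PD (helper74), job Dlo: lower bound for the harmonic masses. -/

set_option autoImplicit false

namespace Pool.Agent.Q162.PD

open Finset Filter Topology
open Pool.Agent.H499R2.ND Pool.Agent.H320R2.PD Pool.Agent.Y856.PD Pool.Agent.Q74.PD

open Classical in
/-- the number of the valid words, weighted -/
noncomputable def FF (d : ℤ) (A : ℝ) (n : ℕ) (a : ℤ) : ℝ :=
  ∑ k ∈ Icc (n + 1) ⌊Real.log A / 2⌋₊, ∑ T ∈ range (k * (3 * k) + 1),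
    if Rg A k T a then (3 : ℝ) ^ k / (2 ^ T * a) * Nv d (3 * k) k T a else 0

open Classical in
/-- the mass of the words valid to the precision `n` -/
noncomputable def HH (d : ℤ) (A : ℝ) (n : ℕ) (a : ℤ) : ℝ :=
  ∑ k ∈ Icc (n + 1) ⌊Real.log A / 2⌋₊, ∑ T ∈ range (k * (3 * k) + 1),
    if Rg A k T a then (3 : ℝ) ^ n * Cv d (3 * k) k T n a else 0

theorem Dn_nonneg (d : ℤ) : ∀ (n : ℕ) (a : ℤ), 0 ≤ Dn d n a := by
  intro n
  induction n with
  | zero =>
    intro a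
    unfold Dn
    exact zero_le_one
  | succ n ih =>
    intro a
    unfold Dn
    apply tsum_nonneg
    intro e
    split_ifs
    · have := ih ((2 ^ (e + 1) * a - d) / 3)
      positivity
    · exact le_refl _

theorem two_pow_le {A : ℝ} (hA : Real.exp 2 ≤ A) {k : ℕ} (hk : k ≤ ⌊Real.log A / 2⌋₊) :
    2 * (3 : ℝ) ^ k ≤ A := by
  have hA0 : 0 < A := lt_of_lt_of_le (Real.exp_pos _) hA
  have hlog : 2 ≤ Real.log A := by
    rw [Real.le_log_iff_exp_le hA0]
    exact hA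
  have h1 : (k : ℝ) ≤ Real.log A / 2 := by
    have h2 : ((⌊Real.log A / 2⌋₊ : ℕ) : ℝ) ≤ Real.log A / 2 := Nat.floor_le (by linarith)
    have h3 : (k : ℝ) ≤ ((⌊Real.log A / 2⌋₊ : ℕ) : ℝ) := by exact_mod_cast hk
    linarith
  rw [← Real.log_le_log_iff (by positivity) hA0, Real.log_mul (by norm_num) (by positivity), Real.log_pow]
  have h2 := Real.log_two_lt_d9
  have h3 := Real.log_three_lt_d9
  have h4 : (k : ℝ) * Real.log 3 ≤ (Real.log A / 2) * 1.0986122888 := by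
    have h5 : 0 ≤ Real.log 3 := Real.log_nonneg (by norm_num)
    nlinarith
  nlinarith

/-- the difference of the two sums, in mean -/
theorem diff_mean (hV : S_Vld) {d : ℤ} (hd3 : IsCoprime d 3) {C : ℝ} (hC : 0 < C) {n : ℕ} (hn : 1 ≤ n)
    (hM : ∀ k : ℕ, n ≤ k → ∑ T ∈ range (k * (3 * k) + 1), dev (FWT (3 * k) k T) wwt (fun w => (Wo w : ℤ)) k n ≤ C)
    {A : ℝ} (hA : Real.exp 2 ≤ A) :
    ∑ a ∈ Ico ⌈A⌉ ⌈2 * A⌉, |FF d A n a - HH d A n a / a| ≤ Real.log A * C := by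
  classical
  have hA0 : 0 < A := lt_of_lt_of_le (Real.exp_pos _) hA
  have hA1 : 1 ≤ A := le_trans (by
    have := Real.add_one_le_exp (2 : ℝ)
    linarith) hA
  have hlog : 2 ≤ Real.log A := by
    rw [Real.le_log_iff_exp_le hA0]
    exact hA
  have hlen : ∀ a ∈ Ico ⌈A⌉ ⌈2 * A⌉, A ≤ (a : ℝ) := by
    intro a ha
    rw [mem_Ico] at ha
    exact Int.ceil_le.1 ha.1
  -- pointwise bound
  have hpt : ∀ a ∈ Ico ⌈A⌉ ⌈2 * A⌉, |FF d A n a - HH d A n a / a| ≤
      ∑ k ∈ Icc (n + 1) ⌊Real.log A / 2⌋₊, ∑ T ∈ range (k * (3 * k) + 1),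
        (3 : ℝ) ^ k / (2 ^ T * A) * |Nv d (3 * k) k T a - 2 ^ T * Cv d (3 * k) k T n a / 3 ^ (k - n)| := by
    intro a ha
    have haA := hlen a ha
    have ha0 : (0 : ℝ) < a := lt_of_lt_of_le hA0 haA
    unfold FF HH
    rw [sum_div, ← sum_sub_distrib]
    refine (abs_sum_le_sum_abs _ _).trans ?_
    apply sum_le_sum
    intro k hk
    rw [mem_Icc] at hk
    rw [sum_div, ← sum_sub_distrib]
    refine (abs_sum_le_sum_abs _ _).trans ?_
    apply sum_le_sum
    intro T _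
    split_ifs with hR
    · have e1 : (3 : ℝ) ^ k / (2 ^ T * a) * Nv d (3 * k) k T a - 3 ^ n * Cv d (3 * k) k T n a / a =
          (3 : ℝ) ^ k / (2 ^ T * a) * (Nv d (3 * k) k T a - 2 ^ T * Cv d (3 * k) k T n a / 3 ^ (k - n)) := by
        have e2 : (3 : ℝ) ^ k = 3 ^ n * 3 ^ (k - n) := by
          rw [← pow_add]
          congr 1
          omega
        rw [e2]
        field_simp
      rw [e1, abs_mul]
      apply mul_le_mul_of_nonneg_right _ (abs_nonneg _)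
      rw [abs_of_nonneg (by positivity)]
      apply div_le_div_of_nonneg_left (by positivity) (by positivity)
      exact mul_le_mul_of_nonneg_left haA (by positivity)
    · rw [zero_div, sub_zero, abs_zero]
      positivity
  refine (sum_le_sum hpt).trans ?_
  rw [sum_comm]
  have hk : ∀ k ∈ Icc (n + 1) ⌊Real.log A / 2⌋₊, ∑ a ∈ Ico ⌈A⌉ ⌈2 * A⌉, ∑ T ∈ range (k * (3 * k) + 1),
        (3 : ℝ) ^ k / (2 ^ T * A) * |Nv d (3 * k) k T a - 2 ^ T * Cv d (3 * k) k T n a / 3 ^ (k - n)| ≤ 2 * C := by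
    intro k hk
    rw [mem_Icc] at hk
    have h3k := two_pow_le hA hk.2
    rw [sum_comm]
    have hT : ∀ T ∈ range (k * (3 * k) + 1), ∑ a ∈ Ico ⌈A⌉ ⌈2 * A⌉,
        (3 : ℝ) ^ k / (2 ^ T * A) * |Nv d (3 * k) k T a - 2 ^ T * Cv d (3 * k) k T n a / 3 ^ (k - n)| ≤
        2 * dev (FWT (3 * k) k T) wwt (fun w => (Wo w : ℤ)) k n := by
      intro T _
      rw [← mul_sum]
      have h1 := hV d hd3 A hA1 (3 * k) k T n (by omega)
      have h2 : 0 ≤ (A / 3 ^ k + 2) * 2 ^ T * dev (FWT (3 * k) k T) wwt (fun w => (Wo w : ℤ)) k n :=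
        le_trans (sum_nonneg fun a _ => abs_nonneg _) h1
      have h3 : 0 ≤ dev (FWT (3 * k) k T) wwt (fun w => (Wo w : ℤ)) k n := by
        by_contra hcon
        push Not at hcon
        have h4 : 0 < (A / 3 ^ k + 2) * 2 ^ T := by positivity
        have := mul_neg_of_pos_of_neg h4 hcon
        linarith
      refine (mul_le_mul_of_nonneg_left h1 (by positivity)).trans ?_
      have e1 : (3 : ℝ) ^ k / (2 ^ T * A) * ((A / 3 ^ k + 2) * 2 ^ T * dev (FWT (3 * k) k T) wwt (fun w => (Wo w : ℤ)) k n) =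
          (1 + 2 * 3 ^ k / A) * dev (FWT (3 * k) k T) wwt (fun w => (Wo w : ℤ)) k n := by
        field_simp
      rw [e1]
      apply mul_le_mul_of_nonneg_right _ h3
      have h5 : 2 * (3 : ℝ) ^ k / A ≤ 1 := by
        rw [div_le_one hA0]
        exact h3k
      linarith
    refine (sum_le_sum hT).trans ?_
    rw [← mul_sum]
    have := hM k (by omega)
    linarith
  refine (sum_le_sum hk).trans ?_
  rw [sum_const, nsmul_eq_mul]
  have h1 : ((Icc (n + 1) ⌊Real.log A / 2⌋₊).card : ℝ) ≤ Real.log A / 2 := by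
    have h2 : (Icc (n + 1) ⌊Real.log A / 2⌋₊).card ≤ ⌊Real.log A / 2⌋₊ := by
      rw [Nat.card_Icc]
      omega
    have h3 : ((Icc (n + 1) ⌊Real.log A / 2⌋₊).card : ℝ) ≤ ((⌊Real.log A / 2⌋₊ : ℕ) : ℝ) := by
      exact_mod_cast h2
    exact h3.trans (Nat.floor_le (by linarith))
  calc ((Icc (n + 1) ⌊Real.log A / 2⌋₊).card : ℝ) * (2 * C) ≤ (Real.log A / 2) * (2 * C) :=
        mul_le_mul_of_nonneg_right h1 (by positivity)
    _ = Real.log A * C := by ring

theorem sum_inv {A : ℝ} (hA : 1 ≤ A) : ∑ a ∈ Ico ⌈A⌉ ⌈2 * A⌉, 1 / (a : ℝ) ≤ 2 := by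
  have hA0 : 0 < A := by linarith
  have h1 : ∀ a ∈ Ico ⌈A⌉ ⌈2 * A⌉, 1 / (a : ℝ) ≤ 1 / A := by
    intro a ha
    rw [mem_Ico] at ha
    exact one_div_le_one_div_of_le hA0 (Int.ceil_le.1 ha.1)
  refine (sum_le_sum h1).trans ?_
  rw [sum_const, nsmul_eq_mul, Int.card_Ico]
  have h2 : ((⌈2 * A⌉ - ⌈A⌉).toNat : ℝ) ≤ A + 1 := by
    have h3 : ⌈A⌉ ≤ ⌈2 * A⌉ := Int.ceil_mono (by linarith)
    have h4 : (((⌈2 * A⌉ - ⌈A⌉).toNat : ℤ) : ℝ) = ((⌈2 * A⌉ - ⌈A⌉ : ℤ) : ℝ) := by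
      rw [Int.toNat_of_nonneg (by omega)]
    have h5 : (((⌈2 * A⌉ - ⌈A⌉).toNat : ℕ) : ℝ) = (((⌈2 * A⌉ - ⌈A⌉).toNat : ℤ) : ℝ) := by
      rw [Int.cast_natCast]
    rw [h5, h4]
    push_cast
    have h6 := Int.ceil_lt_add_one (2 * A)
    have h7 := Int.le_ceil A
    linarith
  calc ((⌈2 * A⌉ - ⌈A⌉).toNat : ℝ) * (1 / A) ≤ (A + 1) * (1 / A) :=
        mul_le_mul_of_nonneg_right h2 (by positivity)
    _ ≤ 2 := by
        rw [mul_one_div, div_le_iff₀ hA0]
        linarith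

theorem c0_pos : 0 < c0 := by
  unfold c0
  have : 0 < Real.log (4 / 3) := Real.log_pos (by norm_num)
  positivity

/-- **Lower bound for the harmonic masses.** -/
theorem dlo (hi : S_Inj) (hV : S_Vld) (hM : S_Mix) (hL : S_Lln) (hD : S_Dav) : S_Dlo := by
  classical
  intro d hd hd3 ε hε
  obtain ⟨C, hC, hC2⟩ := hM 2
  have hc0 := c0_pos
  obtain ⟨n₀, hn₀⟩ := exists_nat_gt (80 * C / ε)
  refine ⟨n₀ + 1, ?_⟩
  intro n hn
  have hn1 : 1 ≤ n := by omega
  have hnR : (1 : ℝ) ≤ n := by exact_mod_cast hn1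
  -- parameters
  set ε1 : ℝ := min 1 (ε / (8 * c0)) with hε1
  have hε1pos : 0 < ε1 := lt_min one_pos (by positivity)
  have hε1le : ε1 ≤ 1 := min_le_left _ _
  have hε1c : ε1 * c0 ≤ ε / 8 := by
    have h1 : ε1 ≤ ε / (8 * c0) := min_le_right _ _
    calc ε1 * c0 ≤ ε / (8 * c0) * c0 := mul_le_mul_of_nonneg_right h1 hc0.le
      _ = ε / 8 := by field_simp
  set ε2 : ℝ := ε / 16 with hε2
  have hε2pos : 0 < ε2 := by positivity
  obtain ⟨A1, hA1⟩ := hi d hd hd3 ε1 hε1pos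
  obtain ⟨A2, hA2⟩ := hL d hd3 n ε2 hε2pos
  obtain ⟨A3, hA3⟩ := hD d hd3 n 1 one_pos
  refine ⟨max (max A1 A2) (max A3 (Real.exp 2)), ?_⟩
  intro A hA
  have g1 : A1 ≤ A := ((le_max_left _ _).trans (le_max_left _ _)).trans hA
  have g2 : A2 ≤ A := ((le_max_right _ _).trans (le_max_left _ _)).trans hA
  have g3 : A3 ≤ A := ((le_max_left _ _).trans (le_max_right _ _)).trans hA
  have g4 : Real.exp 2 ≤ A := ((le_max_right _ _).trans (le_max_right _ _)).trans hA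
  have hA0 : 0 < A := lt_of_lt_of_le (Real.exp_pos _) g4
  have hAone : 1 ≤ A := le_trans (by
    have := Real.add_one_le_exp (2 : ℝ)
    linarith) g4
  have hlog : 2 ≤ Real.log A := by
    rw [Real.le_log_iff_exp_le hA0]
    exact g4
  have hlogle : Real.log A ≤ Real.log (2 * A) := Real.log_le_log hA0 (by linarith)
  have hlen : 0 < len A := by
    unfold len
    linarith
  have hWsub : Wn d A ⊆ Ico ⌈A⌉ ⌈2 * A⌉ := by
    unfold Wn
    exact filter_subset _ _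
  have hmem : ∀ a ∈ Ico ⌈A⌉ ⌈2 * A⌉, A ≤ (a : ℝ) ∧ (a : ℝ) < 2 * A := by
    intro a ha
    rw [mem_Ico] at ha
    exact ⟨Int.ceil_le.1 ha.1, Int.lt_ceil.1 ha.2⟩
  have hDn : ∀ a, 0 ≤ Dn d n a := Dn_nonneg d n
  refine ⟨fun a => 2 / len A * |FF d A n a - HH d A n a / a| + (2 * ε2 * (1 / a) + ε1 * c0 * (Dn d n a / a)), ?_, ?_, ?_⟩
  · intro a ha
    have h1 := hmem a (hWsub ha)
    have ha0 : (0 : ℝ) < a := lt_of_lt_of_le hA0 h1.1
    have h2 := hDn a
    positivity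
  · have hnn : ∀ a ∈ Ico ⌈A⌉ ⌈2 * A⌉, 0 ≤ 2 / len A * |FF d A n a - HH d A n a / a| +
        (2 * ε2 * (1 / a) + ε1 * c0 * (Dn d n a / a)) := by
      intro a ha
      have h1 := hmem a ha
      have ha0 : (0 : ℝ) < a := lt_of_lt_of_le hA0 h1.1
      have h2 := hDn a
      positivity
    refine (sum_le_sum_of_subset_of_nonneg hWsub fun a ha _ => hnn a ha).trans ?_
    rw [sum_add_distrib, sum_add_distrib, ← mul_sum, ← mul_sum, ← mul_sum]
    have h1 := diff_mean hV hd3 (C := C / (n : ℝ) ^ 2) (by positivity) hn1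
      (fun k hk => hC2 k n (3 * k) hn1 hk le_rfl) g4
    have h2 := sum_inv hAone
    have h3 := (abs_le.1 (hA3 A g3)).2
    have h4 : ∑ a ∈ Ico ⌈A⌉ ⌈2 * A⌉, Dn d n a / a ≤ 2 := by
      have := Real.log_two_lt_d9
      linarith
    have h5 : 2 / len A * ∑ a ∈ Ico ⌈A⌉ ⌈2 * A⌉, |FF d A n a - HH d A n a / a| ≤ ε / 2 := by
      calc 2 / len A * ∑ a ∈ Ico ⌈A⌉ ⌈2 * A⌉, |FF d A n a - HH d A n a / a| ≤
            2 / len A * (Real.log A * (C / (n : ℝ) ^ 2)) := mul_le_mul_of_nonneg_left h1 (by positivity)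
        _ = 40 * (Real.log A / Real.log (2 * A)) * (C / (n : ℝ) ^ 2) := by
            unfold len
            field_simp
            ring
        _ ≤ 40 * 1 * (C / (n : ℝ) ^ 2) := by
            apply mul_le_mul_of_nonneg_right _ (by positivity)
            apply mul_le_mul_of_nonneg_left _ (by norm_num)
            rw [div_le_one (by linarith)]
            exact hlogle
        _ ≤ ε / 2 := by
            have h6 : 80 * C / ε < n := by
              have : (n₀ : ℝ) ≤ n := by exact_mod_cast (by omega : n₀ ≤ n)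
              linarith
            rw [div_lt_iff₀ hε] at h6
            have h7 : (n : ℝ) ≤ (n : ℝ) ^ 2 := by nlinarith
            have h8 : 80 * C ≤ (n : ℝ) ^ 2 * ε := by nlinarith
            have h9 : 40 * 1 * (C / (n : ℝ) ^ 2) = 40 * C / (n : ℝ) ^ 2 := by ring
            rw [h9, div_le_iff₀ (by positivity)]
            linarith
    have h6 : 2 * ε2 * ∑ a ∈ Ico ⌈A⌉ ⌈2 * A⌉, 1 / (a : ℝ) ≤ ε / 4 := by
      calc 2 * ε2 * ∑ a ∈ Ico ⌈A⌉ ⌈2 * A⌉, 1 / (a : ℝ) ≤ 2 * ε2 * 2 :=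
            mul_le_mul_of_nonneg_left h2 (by positivity)
        _ = ε / 4 := by
            rw [hε2]
            ring
    have h7 : ε1 * c0 * ∑ a ∈ Ico ⌈A⌉ ⌈2 * A⌉, Dn d n a / a ≤ ε / 4 := by
      calc ε1 * c0 * ∑ a ∈ Ico ⌈A⌉ ⌈2 * A⌉, Dn d n a / a ≤ ε1 * c0 * 2 :=
            mul_le_mul_of_nonneg_left h4 (by positivity)
        _ ≤ ε / 8 * 2 := mul_le_mul_of_nonneg_right hε1c (by norm_num)
        _ = ε / 4 := by ring
    linarith
  · intro a ha
    have h1 := hmem a (hWsub ha)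
    have ha0 : (0 : ℝ) < a := lt_of_lt_of_le hA0 h1.1
    have hfar : a ∉ Far d A := by
      unfold Wn at ha
      exact (mem_filter.1 ha).2
    have h2 : (1 - ε1) * FF d A n a ≤ hs (Pr d a) (Ul A) (Ur A) := hA1 A g1 n a h1.1 h1.2 hfar
    have h3 : len A / Real.log (4 / 3) * Dn d n a - ε2 * len A ≤ HH d A n a := hA2 A g2 a h1.1 h1.2
    have h4 := le_abs_self (HH d A n a / a - FF d A n a)
    rw [abs_sub_comm] at h4
    have h5 := hDn a
    have hl43 : 0 < Real.log (4 / 3) := Real.log_pos (by norm_num)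
    unfold hm
    have h6 : 2 / len A * ((1 - ε1) * FF d A n a) ≤ 2 / len A * hs (Pr d a) (Ul A) (Ur A) :=
      mul_le_mul_of_nonneg_left h2 (by positivity)
    refine le_trans ?_ h6
    -- the main term
    have h7 : c0 * (Dn d n a / a) - 2 * ε2 * (1 / a) ≤ 2 / len A * (HH d A n a / a) := by
      have e1 : c0 * (Dn d n a / a) - 2 * ε2 * (1 / a) =
          2 / len A * ((len A / Real.log (4 / 3) * Dn d n a - ε2 * len A) / a) := by
        unfold c0
        field_simp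
      rw [e1]
      apply mul_le_mul_of_nonneg_left _ (by positivity)
      exact div_le_div_of_nonneg_right h3 ha0.le
    set X : ℝ := 2 / len A * |FF d A n a - HH d A n a / a| with hX
    have hX0 : 0 ≤ X := by positivity
    have h8 : c0 * (Dn d n a / a) - 2 * ε2 * (1 / a) - X ≤ 2 / len A * FF d A n a := by
      have h9 : 2 / len A * (HH d A n a / a - |FF d A n a - HH d A n a / a|) ≤ 2 / len A * FF d A n a := by
        apply mul_le_mul_of_nonneg_left _ (by positivity)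
        linarith
      rw [mul_sub] at h9
      linarith
    have h9 : (1 - ε1) * (c0 * (Dn d n a / a) - 2 * ε2 * (1 / a) - X) ≤ (1 - ε1) * (2 / len A * FF d A n a) :=
      mul_le_mul_of_nonneg_left h8 (by linarith)
    have h10 : 0 ≤ ε1 * (2 * ε2 * (1 / a) + X) := by positivity
    have h11 : 2 / len A * ((1 - ε1) * FF d A n a) = (1 - ε1) * (2 / len A * FF d A n a) := by ring
    rw [h11]
    refine le_trans ?_ h9
    have h12 : (1 - ε1) * (c0 * (Dn d n a / a) - 2 * ε2 * (1 / a) - X) =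
        c0 * (Dn d n a / a) - (X + (2 * ε2 * (1 / a) + ε1 * c0 * (Dn d n a / a))) +
          ε1 * (2 * ε2 * (1 / a) + X) := by ring
    rw [h12]
    linarith

end Pool.Agent.Q162.PD
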